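import Mathlib

/-!
# A regular (1,2)-realizable graph that is not vertex-transitive

The graph `G` is a Cayley graph of `Z_6 × Z_6 × Z_2` on 72 vertices (a distance-regular antipodal
double cover of the complete graph on 36 vertices).  All its first and second neighbourhoods are
isomorphic to one connected 18-regular graph `H` on 35 vertices, and `H` is not vertex-transitive:
some vertices of `H` lie in a clique with six vertices and others do not.
-/

namespace Pool.Agent.Results.MP_824d98_co.NonTransitive

/-- The `k`-neighbourhood of `x`: the subgraph of `G` induced by the set of vertices whose distance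
from `x` in `G` is exactly `k` (`edist` is the extended distance, infinite between components). -/
def nbhd {V : Type} (G : SimpleGraph V) (k : ℕ) (x : V) :
    SimpleGraph {y : V | G.edist x y = k} :=
  G.induce {y : V | G.edist x y = k}

/-- `H` is `(1,2)`-realizable: there is a finite (nonempty) graph `G` such that for every vertex `x`
both the `1`-neighbourhood and the `2`-neighbourhood of `x` are isomorphic to `H`. -/
def Realizable12 {W : Type} (H : SimpleGraph W) : Prop :=
  ∃ (V : Type) (_ : Fintype V) (_ : Nonempty V) (G : SimpleGraph V),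
    ∀ x : V, Nonempty (nbhd G 1 x ≃g H) ∧ Nonempty (nbhd G 2 x ≃g H)

/-- The automorphism group of `H` acts transitively on the vertices. -/
def VertexTransitive {W : Type} (H : SimpleGraph W) : Prop :=
  ∀ u v : W, ∃ φ : H ≃g H, φ u = v

/-! ### The construction -/

/-- The vertex set of the graph `G`. -/
abbrev V0 : Type := ZMod 6 × ZMod 6 × ZMod 2

/-- The connection set. -/
def S (d : V0) : Bool :=
  !(d.1 == 0 && d.2.1 == 0) &&
    ((d.1 == 0 || d.2.1 == 0 || d.1 + d.2.1 == 0) == (d.2.2 == 0))

theorem S_zero : S 0 = false := by decide +kernel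

theorem S_neg : ∀ d : V0, S (-d) = S d := by decide +kernel

/-- The Cayley graph of `Z_6 × Z_6 × Z_2` with connection set `S`. -/
def G0 : SimpleGraph V0 where
  Adj x y := S (y - x) = true
  symm := ⟨fun x y h => by
    have : x - y = -(y - x) := by abel
    rw [this, S_neg]; exact h⟩
  loopless := ⟨fun x h => by
    rw [sub_self, S_zero] at h; exact absurd h (by decide)⟩

instance : DecidableRel G0.Adj := fun x y => inferInstanceAs (Decidable (S (y - x) = true))

/-- The vertex set of the graph `H`. -/
abbrev W0 : Type := {y : V0 // S y = true}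

/-- The local graph. -/
def H0 : SimpleGraph W0 := G0.comap Subtype.val

instance : DecidableRel H0.Adj := fun x y =>
  inferInstanceAs (Decidable (S ((y : V0) - (x : V0)) = true))

theorem adj_iff (x y : V0) : G0.Adj x y ↔ S (y - x) = true := Iff.rfl

theorem dist_one (x y : V0) : G0.edist x y = ((1 : ℕ) : ℕ∞) ↔ S (y - x) = true := by
  rw [Nat.cast_one, SimpleGraph.edist_eq_one_iff_adj, adj_iff]

theorem key : ∀ d : V0, (d ≠ 0 ∧ S d = false ∧ ∃ z : V0, S z = true ∧ S (d - z) = true) ↔
    S (d - (0, 0, 1)) = true := by decide +kernel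

theorem dist_two (x y : V0) :
    G0.edist x y = ((2 : ℕ) : ℕ∞) ↔ S (y - x - (0, 0, 1)) = true := by
  rw [← key (y - x), Nat.cast_ofNat, SimpleGraph.edist_eq_two_iff]
  constructor
  · rintro ⟨h1, h2, z, hz⟩
    rw [SimpleGraph.mem_commonNeighbors, adj_iff, adj_iff] at hz
    refine ⟨sub_ne_zero.2 (Ne.symm h1), ?_, z - x, hz.1, ?_⟩
    · rw [adj_iff, Bool.not_eq_true] at h2
      exact h2
    · have e : y - x - (z - x) = -(z - y) := by abel
      rw [e, S_neg]
      exact hz.2
  · rintro ⟨h1, h2, z, hz1, hz2⟩
    refine ⟨fun e => h1 (sub_eq_zero.2 e.symm), ?_, x + z, ?_⟩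
    · rw [adj_iff, h2]
      decide
    · rw [SimpleGraph.mem_commonNeighbors, adj_iff, adj_iff]
      refine ⟨?_, ?_⟩
      · rw [add_sub_cancel_left]
        exact hz1
      · have e : x + z - y = -(y - x - z) := by abel
        rw [e, S_neg]
        exact hz2

/-- Every translate of the connection set induces a copy of `H0`. -/
def isoOf (s : Set V0) (c : V0) (h : ∀ y, y ∈ s ↔ S (y - c) = true) : G0.induce s ≃g H0 where
  toFun y := ⟨(y : V0) - c, (h y).1 y.2⟩
  invFun w := ⟨(w : V0) + c, (h _).2 (by rw [add_sub_cancel_right]; exact w.2)⟩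
  left_inv y := by
    apply Subtype.ext
    exact sub_add_cancel _ _
  right_inv w := by
    apply Subtype.ext
    exact add_sub_cancel_right _ _
  map_rel_iff' := by
    intro a b
    change S (((b : V0) - c) - ((a : V0) - c)) = true ↔ S ((b : V0) - (a : V0)) = true
    rw [sub_sub_sub_cancel_right]

theorem realizable : Realizable12 H0 := by
  refine ⟨V0, inferInstance, ⟨0⟩, G0, fun x => ⟨⟨?_⟩, ⟨?_⟩⟩⟩
  · exact isoOf _ x (fun y => dist_one x y)
  · exact isoOf _ (x + (0, 0, 1)) (fun y => by
      rw [← sub_sub]
      exact dist_two x y)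

theorem regular : H0.IsRegularOfDegree 18 := by
  intro w
  revert w
  decide +kernel

theorem diam : ∀ x y : W0, x = y ∨ H0.Adj x y ∨ ∃ z, H0.Adj x z ∧ H0.Adj z y := by
  decide +kernel

theorem connected : H0.Connected := by
  have : Nonempty W0 := ⟨⟨(0, 1, 0), by decide +kernel⟩⟩
  refine ⟨fun x y => ?_⟩
  rcases diam x y with h | h | ⟨z, h1, h2⟩
  · rw [h]
  · exact h.reachable
  · exact h1.reachable.trans h2.reachable

/-! ### Cliques through a vertex -/

/-- Whether the list `l` contains a chain of `k` vertices each adjacent to all earlier ones. -/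
def hc : ℕ → List V0 → Bool
  | 0, _ => true
  | k + 1, l => l.any fun a => hc k (l.filter fun y => S (y - a))

theorem hc_of_pairwise : ∀ (c : List V0) (l : List V0), (∀ a ∈ c, a ∈ l) →
    c.Pairwise (fun a b => S (b - a) = true) → hc c.length l = true
  | [], l, _, _ => rfl
  | a :: c, l, h, hp => by
    rw [List.pairwise_cons] at hp
    rw [List.length_cons, hc, List.any_eq_true]
    refine ⟨a, h a List.mem_cons_self, hc_of_pairwise c _ (fun b hb => ?_) hp.2⟩
    rw [List.mem_filter]
    exact ⟨h b (List.mem_cons_of_mem _ hb), hp.1 b hb⟩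

/-- A vertex in a clique of size six. -/
def u0 : W0 := ⟨(0, 3, 0), by decide +kernel⟩

/-- A vertex in no clique of size six. -/
def v0 : W0 := ⟨(0, 1, 0), by decide +kernel⟩

/-- A list of all vertices of `G0`. -/
def allV : List V0 :=
  ([0, 1, 2, 3, 4, 5] : List (ZMod 6)).flatMap fun i =>
    ([0, 1, 2, 3, 4, 5] : List (ZMod 6)).flatMap fun j => [(i, j, 0), (i, j, 1)]

theorem mem_allV : ∀ v : V0, v ∈ allV := by decide +kernel

/-- The neighbours of `v0` in `H0`. -/
def nb0 : List V0 := allV.filter fun y => S y && S (y - (0, 1, 0))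

theorem no_clique : hc 5 nb0 = false := by decide +kernel

/-- Five vertices forming a clique of size six together with `u0`. -/
def c0 : List W0 :=
  [⟨(1, 1, 1), by decide +kernel⟩, ⟨(1, 4, 1), by decide +kernel⟩,
    ⟨(3, 0, 0), by decide +kernel⟩, ⟨(3, 3, 0), by decide +kernel⟩,
    ⟨(4, 1, 1), by decide +kernel⟩]

theorem c0_pairwise : (u0 :: c0).Pairwise H0.Adj := by decide +kernel

theorem not_transitive : ¬ VertexTransitive H0 := by
  intro h
  obtain ⟨φ, hφ⟩ := h u0 v0
  have h1 : ((u0 :: c0).map φ).Pairwise H0.Adj := by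
    rw [List.pairwise_map]
    exact c0_pairwise.imp (fun hab => φ.map_rel_iff.2 hab)
  rw [List.map_cons, hφ, List.pairwise_cons] at h1
  have h2 : ((c0.map φ).map Subtype.val).Pairwise (fun a b : V0 => S (b - a) = true) := by
    rw [List.pairwise_map]
    exact h1.2
  have h3 := hc_of_pairwise ((c0.map φ).map Subtype.val) nb0 (fun a ha => by
    rw [List.mem_map] at ha
    obtain ⟨w, hw, rfl⟩ := ha
    rw [nb0, List.mem_filter, Bool.and_eq_true]
    exact ⟨mem_allV _, w.2, h1.1 w hw⟩) h2
  have h4 : ((c0.map φ).map Subtype.val).length = 5 := by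
    rw [List.length_map, List.length_map]
    rfl
  rw [h4, no_clique] at h3
  exact absurd h3 (by decide)

/-- **There is a regular `(1,2)`-realizable graph that is not vertex-transitive.**  It can be taken
connected, with 35 vertices and of degree 18. -/
theorem result : ∃ (W : Type) (_ : Fintype W) (H : SimpleGraph W) (_ : H.LocallyFinite),
    Fintype.card W = 35 ∧ H.Connected ∧ H.IsRegularOfDegree 18 ∧
      Realizable12 H ∧ ¬ VertexTransitive H :=
  ⟨W0, inferInstance, H0, inferInstance, by decide +kernel, connected, regular, realizable,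
    not_transitive⟩

end Pool.Agent.Results.MP_824d98_co.NonTransitive
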